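import Pool.Agent.Helper9.Ends.Defs
import Pool.Agent.Helper44.Ends.Cone

/-!
EN-10a: the complement of a planar domain with `C²` boundary has finitely many components.
-/

set_option autoImplicit false

open Set Filter Metric Topology MeasureTheory
open scoped ContDiff

namespace Pool.Agent.EN

/-- the outside of a disc is preconnected -/
theorem en10_outside {M : ℝ} (hM : 0 < M) : IsPreconnected {z : ℂ | M < ‖z‖} := by
  have h : {z : ℂ | M < ‖z‖} = Complex.exp '' {w | Real.log M < w.re} := by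
    ext z
    simp only [mem_ofPred_eq, mem_image]
    constructor
    · intro hz
      have hz0 : z ≠ 0 := by
        rintro rfl
        rw [norm_zero] at hz; linarith
      refine ⟨Complex.log z, ?_, Complex.exp_log hz0⟩
      rw [Complex.log_re]
      exact Real.log_lt_log hM hz
    · rintro ⟨w, hw, rfl⟩
      rw [Complex.norm_exp]
      exact (Real.log_lt_iff_lt_exp hM).1 hw
  rw [h]
  refine IsPreconnected.image ?_ _ Complex.continuous_exp.continuousOn
  exact (convex_halfSpace_re_gt _).isPreconnected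

theorem en10_closed {X : Set ℂ} (hX : IsClosed X) {x : ℂ} (hx : x ∈ X) :
    IsClosed (connectedComponentIn X x) := by
  rw [← closure_subset_iff_isClosed]
  exact isPreconnected_connectedComponentIn.closure.subset_connectedComponentIn
    (subset_closure (mem_connectedComponentIn hx))
    (hX.closure_subset_iff.2 (connectedComponentIn_subset X x))

/-- EN-10a from EN-9d -/
theorem exists_components_of {Ω : Set ℂ} (hΩ : C2Domain Ω)
    (hloc : ∀ p ∈ frontier Ω, ∃ (δ : ℝ) (S : Set ℂ), 0 < δ ∧ S ⊆ Ωᶜ ∧ IsPreconnected S ∧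
      ball p δ ∩ Ωᶜ ⊆ S ∧ (S ∩ interior Ωᶜ).Nonempty) :
    ∃ (k : ℕ) (K : Fin (k + 1) → Set ℂ) (a : Fin (k + 1) → ℂ),
      (∀ j, IsClosed (K j)) ∧ (∀ j, IsPreconnected (K j)) ∧
      (∀ i j, i ≠ j → Disjoint (K i) (K j)) ∧ (⋃ j, K j) = Ωᶜ ∧
      (∀ j, a j ∈ interior (K j)) ∧ (∃ M : ℝ, ∀ z : ℂ, M < ‖z‖ → z ∈ K 0) := by
  have hcl : IsClosed Ωᶜ := hΩ.isOpen.isClosed_compl
  obtain ⟨M, hM0, hM⟩ : ∃ M : ℝ, 0 < M ∧ Ω ⊆ ball 0 M := by
    obtain ⟨M, hM⟩ := hΩ.bounded.subset_ball 0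
    exact ⟨max M 1, by positivity, hM.trans (ball_subset_ball (le_max_left _ _))⟩
  have hout : {z : ℂ | M < ‖z‖} ⊆ Ωᶜ := by
    intro z hz hzΩ
    have := hM hzΩ
    rw [mem_ball_zero_iff] at this
    exact lt_asymm this hz
  -- every component meets the frontier
  have hmeet : ∀ x ∈ Ωᶜ, ∃ p ∈ frontier Ω, p ∈ connectedComponentIn Ωᶜ x := by
    intro x hx
    by_contra hcon
    push Not at hcon
    have hop : IsOpen (connectedComponentIn Ωᶜ x) := by
      rw [isOpen_iff_mem_nhds]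
      intro y hy
      have hyX := connectedComponentIn_subset _ _ hy
      have hyi : y ∈ interior Ωᶜ := by
        by_contra hn
        refine hcon y ?_ hy
        rw [← frontier_compl, hcl.frontier_eq]
        exact ⟨hyX, hn⟩
      rw [connectedComponentIn_eq hy]
      exact connectedComponentIn_mem_nhds (mem_interior_iff_mem_nhds.1 hyi)
    have huniv : connectedComponentIn Ωᶜ x = univ :=
      IsClopen.eq_univ ⟨en10_closed hcl hx, hop⟩ ⟨x, mem_connectedComponentIn hx⟩
    obtain ⟨w, hw⟩ := hΩ.connected.nonempty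
    have : w ∈ connectedComponentIn Ωᶜ x := by rw [huniv]; trivial
    exact connectedComponentIn_subset _ _ this hw
  -- the frontier is compact
  have hfc : IsCompact (frontier Ω) := by
    refine Metric.isCompact_of_isClosed_isBounded isClosed_frontier ?_
    exact hΩ.bounded.closure.subset frontier_subset_closure
  choose! δ S hδ hSsub hSconn hSball hSint using hloc
  obtain ⟨t, ht, hcover⟩ := hfc.elim_nhds_subcover (fun p => ball p (δ p))
    (fun p hp => ball_mem_nhds p (hδ p hp))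
  have hfrX : frontier Ω ⊆ Ωᶜ := by
    rw [← frontier_compl]; exact hcl.frontier_subset
  -- each component is the component of some `p ∈ t`, and contains `S p`
  have hcomp : ∀ x ∈ Ωᶜ, ∃ p ∈ t, connectedComponentIn Ωᶜ x = connectedComponentIn Ωᶜ p ∧
      S p ⊆ connectedComponentIn Ωᶜ x := by
    intro x hx
    obtain ⟨y, hy, hyx⟩ := hmeet x hx
    obtain ⟨p, hpt, hyp⟩ := mem_iUnion₂.1 (hcover hy)
    have hpf := ht p hpt
    have hyS : y ∈ S p := hSball p hpf ⟨hyp, hfrX hy⟩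
    have hpS : p ∈ S p := hSball p hpf ⟨mem_ball_self (hδ p hpf), hfrX hpf⟩
    have h1 : S p ⊆ connectedComponentIn Ωᶜ y :=
      (hSconn p hpf).subset_connectedComponentIn hyS (hSsub p hpf)
    rw [connectedComponentIn_eq hyx]
    exact ⟨p, hpt, connectedComponentIn_eq (h1 hpS), h1⟩
  set 𝒞 : Set (Set ℂ) := {C | ∃ x ∈ Ωᶜ, connectedComponentIn Ωᶜ x = C} with h𝒞
  have hfin : 𝒞.Finite := by
    refine (t.finite_toSet.image fun p => connectedComponentIn Ωᶜ p).subset ?_
    rintro C ⟨x, hx, rfl⟩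
    obtain ⟨p, hpt, he, -⟩ := hcomp x hx
    exact ⟨p, hpt, he.symm⟩
  -- the outer component
  have hz1 : ((M + 1 : ℝ) : ℂ) ∈ {z : ℂ | M < ‖z‖} := by
    rw [mem_ofPred_eq, Complex.norm_real, Real.norm_of_nonneg (by linarith)]; linarith
  have hC0 : connectedComponentIn Ωᶜ ((M + 1 : ℝ) : ℂ) ∈ 𝒞 := ⟨_, hout hz1, rfl⟩
  have : Finite 𝒞 := hfin
  have : Nonempty 𝒞 := ⟨⟨_, hC0⟩⟩
  obtain ⟨n, ⟨e⟩⟩ := Finite.exists_equiv_fin 𝒞
  obtain ⟨k, rfl⟩ : ∃ k, n = k + 1 := by
    refine Nat.exists_eq_succ_of_ne_zero ?_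
    rintro rfl
    exact (e ⟨_, hC0⟩).elim0
  let e' : Fin (k + 1) ≃ 𝒞 := (Equiv.swap 0 (e ⟨_, hC0⟩)).trans e.symm
  have he0 : (e' 0 : Set ℂ) = connectedComponentIn Ωᶜ ((M + 1 : ℝ) : ℂ) := by
    simp [e']
  have hin : ∀ j, ∃ a, a ∈ interior (e' j : Set ℂ) := by
    intro j
    obtain ⟨x, hx, he⟩ := (e' j).2
    obtain ⟨p, hpt, he2, hS2⟩ := hcomp x hx
    obtain ⟨a, haS, hai⟩ := hSint p (ht p hpt)
    refine ⟨a, ?_⟩
    rw [mem_interior_iff_mem_nhds, ← he, connectedComponentIn_eq (hS2 haS)]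
    exact connectedComponentIn_mem_nhds (mem_interior_iff_mem_nhds.1 hai)
  choose a ha using hin
  refine ⟨k, fun j => (e' j : Set ℂ), a, ?_, ?_, ?_, ?_, ha, M, ?_⟩
  · intro j
    obtain ⟨x, hx, he⟩ := (e' j).2
    show IsClosed (e' j : Set ℂ)
    rw [← he]; exact en10_closed hcl hx
  · intro j
    obtain ⟨x, hx, he⟩ := (e' j).2
    show IsPreconnected (e' j : Set ℂ)
    rw [← he]; exact isPreconnected_connectedComponentIn
  · intro i j hij
    obtain ⟨x, hx, he⟩ := (e' i).2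
    obtain ⟨y, hy, he'⟩ := (e' j).2
    rw [Set.disjoint_left]
    intro z hzi hzj
    apply hij
    apply e'.injective
    apply Subtype.ext
    dsimp only at hzi hzj
    rw [← he] at hzi ⊢
    rw [← he'] at hzj ⊢
    rw [connectedComponentIn_eq hzi, connectedComponentIn_eq hzj]
  · ext z
    simp only [mem_iUnion]
    constructor
    · rintro ⟨j, hj⟩
      obtain ⟨x, hx, he⟩ := (e' j).2
      rw [← he] at hj
      exact connectedComponentIn_subset _ _ hj
    · intro hz
      refine ⟨e'.symm ⟨connectedComponentIn Ωᶜ z, z, hz, rfl⟩, ?_⟩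
      rw [Equiv.apply_symm_apply]
      exact mem_connectedComponentIn hz
  · intro z hz
    show z ∈ (e' 0 : Set ℂ)
    rw [he0]
    exact (en10_outside hM0).subset_connectedComponentIn hz1 hout hz

/-- EN-10a -/
theorem exists_components {Ω : Set ℂ} (hΩ : C2Domain Ω) :
    ∃ (k : ℕ) (K : Fin (k + 1) → Set ℂ) (a : Fin (k + 1) → ℂ),
      (∀ j, IsClosed (K j)) ∧ (∀ j, IsPreconnected (K j)) ∧
      (∀ i j, i ≠ j → Disjoint (K i) (K j)) ∧ (⋃ j, K j) = Ωᶜ ∧
      (∀ j, a j ∈ interior (K j)) ∧ (∃ M : ℝ, ∀ z : ℂ, M < ‖z‖ → z ∈ K 0) :=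
  exists_components_of hΩ fun _ hp => compl_local hΩ hp

end Pool.Agent.EN
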